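import Pool.Agent.helper66.JS.Defs

/-!
# Module D1: schedules of the jobs give times of the letters
-/

set_option autoImplicit false

namespace Pool.Agent.helper66.JS

namespace D1

/-- number of operations of the first `k` letters -/
def off (w : List Let) (k : ℕ) : ℕ := ((w.take k).flatMap opsOf).length

theorem opsOf_length_pos (x : Let) : 0 < (opsOf x).length := by cases x <;> decide

theorem off_succ (w : List Let) (k : ℕ) (h : k < w.length) :
    off w (k + 1) = off w k + (opsOf w[k]).length := by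
  unfold off
  rw [List.take_add_one, List.getElem?_eq_getElem h, List.flatMap_append, List.length_append]
  simp

theorem off_mono (w : List Let) {k k' : ℕ} (h : k ≤ k') : off w k ≤ off w k' := by
  unfold off
  obtain ⟨l, hl⟩ := List.take_prefix_take_left (l := w) h
  rw [← hl, List.flatMap_append, List.length_append]
  omega

theorem off_lt (w : List Let) {k k' : ℕ} (hk : k < w.length) (h : k < k') (e : ℕ)
    (he : e < (opsOf w[k]).length) : off w k + e < off w k' := by
  have h1 := off_succ w k hk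
  have h2 := off_mono w (k := k + 1) (k' := k') h
  omega

theorem getElem?_jobOf (w : List Let) (k : ℕ) (hk : k < w.length) (e : ℕ)
    (he : e < (opsOf w[k]).length) : (jobOf w)[off w k + e]? = (opsOf w[k])[e]? := by
  have h1 : w = w.take k ++ (w[k] :: w.drop (k + 1)) := by
    rw [← List.drop_eq_getElem_cons hk, List.take_append_drop]
  have h2 : jobOf w = (w.take k).flatMap opsOf ++ (opsOf w[k] ++ (w.drop (k + 1)).flatMap opsOf) := by
    unfold jobOf
    conv_lhs => rw [h1]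
    rw [List.flatMap_append, List.flatMap_cons]
  rw [h2]
  unfold off
  rw [List.getElem?_append_right (by omega), List.getElem?_append_left (by omega)]
  congr 1
  omega

theorem isOp (ws : List (List Let)) (j : Fin ws.length) (k : Fin (ws.get j).length) (e m p : ℕ)
    (h : (opsOf (kdOf ws ⟨j, k⟩))[e]? = some (m, p)) :
    IsOp (instJobs ws) (j + 2) (off (ws.get j) k + e) m p := by
  refine ⟨jobOf (ws.get j), ?_, ?_⟩
  · unfold instJobs
    rw [show (j : ℕ) + 2 = j + 1 + 1 from rfl, List.getElem?_cons_succ, List.getElem?_cons_succ,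
      List.getElem?_map, List.getElem?_eq_getElem j.2]
    rfl
  · have he : e < (opsOf (kdOf ws ⟨j, k⟩)).length := by
      by_contra hne
      rw [List.getElem?_eq_none (by omega)] at h
      exact absurd h (by simp)
    rw [getElem?_jobOf (ws.get j) k k.2 e he]
    exact h

theorem isOp0 (ws : List (List Let)) : IsOp (instJobs ws) 0 0 1 26 := ⟨[(1, 26)], rfl, rfl⟩

theorem isOp1 (ws : List (List Let)) : IsOp (instJobs ws) 1 0 2 48 := ⟨[(2, 48)], rfl, rfl⟩

/-- position of the operation on machine 1 -/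
def i2 (x : Let) : ℕ := if f2 x then 1 else 2

/-- position of the operation on machine 2 -/
def i3 (x : Let) : ℕ := if f2 x then 2 else 1

theorem ops1 (x : Let) : (opsOf x)[0]? = some (0, pp x) := by cases x <;> rfl

theorem ops2 (x : Let) (h : 0 < uu x) : (opsOf x)[i2 x]? = some (1, uu x) := by
  cases x <;> first | rfl | (exact absurd h (by decide))

theorem ops3 (x : Let) (h : 0 < vv x) : (opsOf x)[i3 x]? = some (2, vv x) := by
  cases x <;> first | rfl | (exact absurd h (by decide))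

theorem i2_lt (x : Let) (h : 0 < uu x) : i2 x < (opsOf x).length := by
  revert h; cases x <;> decide

theorem i3_lt (x : Let) (h : 0 < vv x) : i3 x < (opsOf x).length := by
  revert h; cases x <;> decide

theorem f2_uu (x : Let) (h : f2 x = true) : 0 < uu x ∧ i2 x = 1 ∧ i3 x = 2 := by
  revert h; cases x <;> decide

theorem f3_vv (x : Let) (h : f3 x = true) : 0 < vv x ∧ i3 x = 1 ∧ i2 x = 2 := by
  revert h; cases x <;> decide

theorem pp_pos (x : Let) : 0 < pp x := by cases x <;> decide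

theorem ne_pos (ws : List (List Let)) (x y : Occ ws) (hxy : x ≠ y) (e e' : ℕ)
    (he : e < (opsOf (kdOf ws x)).length) (he' : e' < (opsOf (kdOf ws y)).length) :
    ((x.1 : ℕ) + 2, off (ws.get x.1) x.2 + e) ≠ ((y.1 : ℕ) + 2, off (ws.get y.1) y.2 + e') := by
  obtain ⟨j, k⟩ := x
  obtain ⟨j', k'⟩ := y
  intro h
  rw [Prod.mk.injEq] at h
  obtain ⟨h1, h2⟩ := h
  have hj : j = j' := by apply Fin.ext; simpa using h1
  subst hj
  simp only at h2
  have hk : (k : ℕ) ≠ k' := fun hkk => hxy (by rw [Fin.ext hkk])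
  rcases lt_or_gt_of_ne hk with hlt | hlt
  · have := off_lt (ws.get j) k.2 hlt e he
    omega
  · have := off_lt (ws.get j) k'.2 hlt e' he'
    omega

/-- all operations of a job with smaller index come earlier -/
theorem sched_lt {jobs : List Job} {L : ℕ} {s : ℕ → ℕ → ℕ} (h : NSched jobs L s) (j : ℕ)
    (J : Job) (hJ : jobs[j]? = some J) (i : ℕ) (m p : ℕ) (hi : J[i]? = some (m, p)) :
    ∀ d, i + 1 + d < J.length → s j i + p ≤ s j (i + 1 + d) := by
  intro d
  induction d with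
  | zero =>
    intro hd
    obtain ⟨⟨m', p'⟩, h'⟩ : ∃ o, J[i + 1]? = some o := ⟨_, List.getElem?_eq_getElem (by omega)⟩
    exact h.order j i m p m' p' ⟨J, hJ, hi⟩ ⟨J, hJ, h'⟩
  | succ d ih =>
    intro hd
    have h1 := ih (by omega)
    obtain ⟨⟨m', p'⟩, h'⟩ : ∃ o, J[i + 1 + d]? = some o :=
      ⟨_, List.getElem?_eq_getElem (by omega)⟩
    obtain ⟨⟨m'', p''⟩, h''⟩ : ∃ o, J[i + 1 + d + 1]? = some o :=
      ⟨_, List.getElem?_eq_getElem (by omega)⟩
    have h2 := h.order j (i + 1 + d) m' p' m'' p'' ⟨J, hJ, h'⟩ ⟨J, hJ, h''⟩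
    have e : i + 1 + (d + 1) = i + 1 + d + 1 := by omega
    rw [e]
    omega

end D1

open D1 in
theorem gs_of_nsched (ws : List (List Let))
    (hws : ∀ w ∈ ws, 2 ≤ w.length → ∀ x ∈ w, three x = true) (L : ℕ) (s : ℕ → ℕ → ℕ)
    (h : NSched (instJobs ws) L s) :
    ∃ t1 t2 t3 s2 s3, GS (kdOf ws) L t1 t2 t3 s2 s3 ∧
      ∀ (j : Fin ws.length) (k k' : Fin (ws.get j).length), k < k' →
        t1 ⟨j, k⟩ < t1 ⟨j, k'⟩ := by
  have o1 : ∀ x : Occ ws, IsOp (instJobs ws) (x.1 + 2) (off (ws.get x.1) x.2 + 0) 0 (pp (kdOf ws x)) :=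
    fun x => isOp ws x.1 x.2 0 _ _ (ops1 _)
  have o2 : ∀ x : Occ ws, 0 < uu (kdOf ws x) →
      IsOp (instJobs ws) (x.1 + 2) (off (ws.get x.1) x.2 + i2 (kdOf ws x)) 1 (uu (kdOf ws x)) :=
    fun x hx => isOp ws x.1 x.2 _ _ _ (ops2 _ hx)
  have o3 : ∀ x : Occ ws, 0 < vv (kdOf ws x) →
      IsOp (instJobs ws) (x.1 + 2) (off (ws.get x.1) x.2 + i3 (kdOf ws x)) 2 (vv (kdOf ws x)) :=
    fun x hx => isOp ws x.1 x.2 _ _ _ (ops3 _ hx)
  refine ⟨fun x => s (x.1 + 2) (off (ws.get x.1) x.2 + 0),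
    fun x => s (x.1 + 2) (off (ws.get x.1) x.2 + i2 (kdOf ws x)),
    fun x => s (x.1 + 2) (off (ws.get x.1) x.2 + i3 (kdOf ws x)), s 0 0, s 1 0,
    { d1 := ?_, d2 := ?_, d3 := ?_, g2 := ?_, g3 := ?_, b1 := ?_, b2 := ?_, b3 := ?_, bs2 := ?_,
      bs3 := ?_, p2 := ?_, p3 := ?_, q2 := ?_, q3 := ?_ }, ?_⟩
  · intro x y hxy
    exact h.machine _ _ _ _ _ _ _ (o1 x) (o1 y)
      (ne_pos ws x y hxy 0 0 (opsOf_length_pos _) (opsOf_length_pos _))
  · intro x y hxy hx hy
    exact h.machine _ _ _ _ _ _ _ (o2 x hx) (o2 y hy)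
      (ne_pos ws x y hxy _ _ (i2_lt _ hx) (i2_lt _ hy))
  · intro x y hxy hx hy
    exact h.machine _ _ _ _ _ _ _ (o3 x hx) (o3 y hy)
      (ne_pos ws x y hxy _ _ (i3_lt _ hx) (i3_lt _ hy))
  · intro x hx
    refine h.machine _ _ _ _ _ _ _ (o2 x hx) (isOp0 ws) ?_
    intro h0
    rw [Prod.mk.injEq] at h0
    omega
  · intro x hx
    refine h.machine _ _ _ _ _ _ _ (o3 x hx) (isOp1 ws) ?_
    intro h0
    rw [Prod.mk.injEq] at h0
    omega
  · intro x
    exact h.bound _ _ _ _ (o1 x)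
  · intro x hx
    exact h.bound _ _ _ _ (o2 x hx)
  · intro x hx
    exact h.bound _ _ _ _ (o3 x hx)
  · exact h.bound _ _ _ _ (isOp0 ws)
  · exact h.bound _ _ _ _ (isOp1 ws)
  · intro x hx
    obtain ⟨h1, h2, _⟩ := f2_uu _ hx
    have h3 := o2 x h1
    simp only [h2] at h3 ⊢
    exact h.order _ _ _ _ _ _ (o1 x) h3
  · intro x hx
    obtain ⟨h1, h2, _⟩ := f3_vv _ hx
    have h3 := o3 x h1
    simp only [h2] at h3 ⊢
    exact h.order _ _ _ _ _ _ (o1 x) h3
  · intro x hx hv
    obtain ⟨h1, h2, h2'⟩ := f2_uu _ hx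
    have h3 := o2 x h1
    have h4 := o3 x hv
    simp only [h2, h2'] at h3 h4 ⊢
    exact h.order _ _ _ _ _ _ h3 h4
  · intro x hx hv
    obtain ⟨h1, h2, h2'⟩ := f3_vv _ hx
    have h3 := o3 x h1
    have h4 := o2 x hv
    simp only [h2, h2'] at h3 h4 ⊢
    exact h.order _ _ _ _ _ _ h3 h4
  · intro j k k' hkk
    obtain ⟨J, hJ, hi⟩ := o1 ⟨j, k⟩
    obtain ⟨J', hJ', hi'⟩ := o1 ⟨j, k'⟩
    have e : J' = J := by
      rw [hJ] at hJ'
      exact (Option.some.inj hJ').symm
    subst e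
    simp only at hi hi' hJ ⊢
    have hlt := off_lt (ws.get j) k.2 (show (k : ℕ) < k' from hkk) 0 (opsOf_length_pos _)
    have hlen : off (ws.get j) k' + 0 < J'.length := by
      by_contra hne
      rw [List.getElem?_eq_none (by omega)] at hi'
      exact absurd hi' (by simp)
    have h1 := sched_lt h (j + 2) J' hJ (off (ws.get j) k + 0) _ _ hi
      (off (ws.get j) k' - (off (ws.get j) k + 1)) (by omega)
    have e2 : off (ws.get j) k + 0 + 1 + (off (ws.get j) k' - (off (ws.get j) k + 1))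
        = off (ws.get j) k' + 0 := by omega
    rw [e2] at h1
    have h2 := pp_pos (kdOf ws ⟨j, k⟩)
    omega

end Pool.Agent.helper66.JS
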